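import Pool.Agent.J4H85.CD.Tail2
import Pool.Agent.J4H85.CD.Main4
import Pool.Agent.J4H4.CD.Jun2
import Pool.Agent.J4H36.CD.Low4
import Pool.Agent.J4H52.CD.Qry
import Pool.Agent.J4H31.CD.Pair2
import Pool.Agent.J4H31.CD.Up2
import Pool.Agent.J4H17.CDC.Ari4

/-!
# Set disjointness: space `(N / T) ^ 2` if the memory is computed by circuits of constant depth

A family of `2 k` subsets of a universe with `u` elements, of total size at most `N`, is
preprocessed: the sets `F (false, i)` of the first half and the sets `F (true, j)` of the second
half. The memory has `s` cells of `w` bits. Every bit of every cell is the value of a circuit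
(unbounded fan-in AND and OR, NOT) of depth at most `d` and size at most `2 ^ κ` on the membership
bits of the family; the circuits are arbitrary (not uniform), and everything may be random. A query
`(i, j)` reads `T` cells adaptively and answers whether `F (false, i)` and `F (true, j)` have a
common element; the rules for the next probe and for the answer are arbitrary functions. If for
all families of total size at most `N` every answer is correct with probability at least
`1 / 2 + δ`, and `28 (120 κ + 24 d + 24) ^ (d + 1) w T ≤ δ ^ 2 N`, then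

  `δ ^ 7 * N ^ 2 ≤ 32 * (120 κ + 24 d + 24) ^ (4 (d + 1)) * s * w ^ 3 * T ^ 2`

for suitable `k` and `u`. So for memories of constant depth and polynomial (or quasipolynomial) size
with words of `O(log N)` bits the space is `Ω~(N ^ 2)` for constant query time, and `Ω~(N ^ 2 / T ^ 2)`
for all `T` up to `N` divided by a polylogarithmic factor, as conjectured; up to these factors
this is the known upper bound. The definitions are in `Pool/Agent/J4H85/CD/DisDefs.lean` (`DisDS`,
`Decides`), `Pool/Agent/J4H85/CD/SetDefs.lean` (`bits`), `Pool/Agent/J4H85/CD/Defs.lean` (`rd`) and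
`Pool/Agent/H568R2/Defs.lean` (`Circuit`).

The proof. Every element is in every set independently with probability `y / 2`, where
`u y ^ 2 = δ ^ 2`, and `1 / y` is `T` times a polylogarithmic factor. By the switching lemma, when
most memberships are fixed at random each bit of the memory becomes a decision tree of depth
`t = 5 κ + d + 1`, except with probability `2 ^ (-4 κ) / 4`. It follows that (1) with high
probability every bit of the memory changes for at most `O(t ^ (d + 1) / y)` elements if one element
is put into one set, and (2) the number of pairs of memberships which change a given bit only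
jointly is on average at most `O(t ^ (2 d + 2) / y ^ 2)`. If `s` is small then for most triples
`i, j, e` no bit of the memory changes only jointly if `e` is put into `F (false, i)` and into
`F (true, j)`, and by (1) for most `e` no cell read by the query changes at all. But the answer
must change.
-/

set_option autoImplicit false

namespace Pool.Agent.Results.MP_90de28_lc.ConstantDepthTradeoff

open Pool.Agent.J4H85.CD

/-- Let `2 ≤ N ≤ 2 ^ κ`, `T ≥ 1` and `28 (120 κ + 24 d + 24) ^ (d + 1) w T ≤ δ ^ 2 N`. There are
`k` and `u` such that every random data structure for families of `2 k` subsets of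
`{0, …, u - 1}` with `s` cells of `w` bits, all computed by circuits of depth at most `d` and size at
most `2 ^ κ` from the membership bits, which decides disjointness for all families of total size at
most `N` with `T` adaptive probes, correctly with probability at least `1 / 2 + δ`, satisfies
`δ ^ 7 * N ^ 2 ≤ 32 * (120 κ + 24 d + 24) ^ (4 (d + 1)) * s * w ^ 3 * T ^ 2`. -/
theorem result (N w T d κ : ℕ) (δ : ℝ) (hN : 2 ≤ N) (hκ : N ≤ 2 ^ κ) (hw : 1 ≤ w)
    (hT : 1 ≤ T) (hδ : 0 < δ) (hδ2 : δ ≤ 1 / 2)
    (hm : 28 * (120 * κ + 24 * d + 24 : ℝ) ^ (d + 1) * (w * T) ≤ δ ^ 2 * N) :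
    ∃ k u : ℕ, 1 ≤ k ∧ 1 ≤ u ∧ ∀ (s : ℕ) (Ω : Type) [Fintype Ω] (p : Ω → ℝ)
      (D : Ω → DisDS k u s w),
      (∀ ω c b, ((D ω).mem c b).depth ≤ d ∧ ((D ω).mem c b).size ≤ 2 ^ κ) →
      Decides p D N T δ →
      δ ^ 7 * (N : ℝ) ^ 2 ≤
        32 * (120 * κ + 24 * d + 24 : ℝ) ^ (4 * (d + 1)) * s * w ^ 3 * T ^ 2 :=
  t_MAIN4 Pool.Agent.J4H4.CD.t_JUN2
    (Pool.Agent.J4H31.CD.t_UP2 t_TAIL2 Pool.Agent.J4H31.CD.t_PAIR2 Pool.Agent.J4H52.CD.t_QRY)
    Pool.Agent.J4H36.CD.t_LOW4 Pool.Agent.J4H17.CDC.t_ARI4
    N w T d κ δ hN hκ hw hT hδ hδ2 hm

end Pool.Agent.Results.MP_90de28_lc.ConstantDepthTradeoff
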