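import Pool.Agent.J4H45.GT.EFin

set_option autoImplicit false

/-!
# SetDisjointness: tables of linear sketches over finite abelian groups need quadratic space

A family of `2 k` subsets of a universe with `u` elements is preprocessed: the sets `X i` of the
first half and the sets `Y j` of the second half. A query `(i, j)` asks whether `X i` and `Y j`
intersect. The memory has `c` cells. The cell `σ` belongs to a finite abelian group `Γ σ` of order at
most `2 ^ r` (every cell may have its own group). Its sketch is the group element

  `∑ a σ (i, j)` over all `(i, j)` in `P σ` with `X i ∩ Y j ≠ ∅`, plus `f σ X`, plus `g σ Y`,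

where the set `P σ`, the coefficients `a σ (i, j)` in `Γ σ` and the functions `f σ`, `g σ` of the
halves are arbitrary; the contents of the cell are an arbitrary function of its sketch and of the `d`
bits of a protocol of two players who know one half each. The query procedure reads `t` cells
adaptively, without any bound on the computation, and everything may be random; every query is
answered correctly with probability at least `1 / 2 + δ`. Only the `s` cells with nonempty `P σ`
count. For all `N` there are `k` and `u` such that for the families of total size at most `N`

  `δ ^ 10 * N ^ 2 ≤ 10 ^ 39 * ((r + d) * t) ^ 4 * (r * s + 1)`.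

So in this model constant (and polylogarithmic) query time needs space `Ω~(N ^ 2)`, as in the
question. For the groups `(Z / 2) ^ r` this was known from a starting file of another problem
(`Pool.Agent.Results.MP_f326ae_lc.EmptinessTables`: exclusive ors of answers). New are all other
groups: for instance, with `Γ σ = Z / 2 ^ r`, the cells may contain arbitrary functions of integers
`∑ a σ (i, j) + f σ X + g σ Y` from `[0, 2 ^ r)`, such as the number of the pairs in `P σ` which
intersect, its value modulo any number, or whether there is such a pair.

The proof is described in `Pool.Agent.Results.MP_e016b3_lc.GroupTables`.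
-/

namespace Pool.Agent.Results.MP_90de28_lc.GroupSketches

open Pool.Agent.J4H45.GT

/-- For all `N`, `r`, `d`, `t`, `δ` there are `k` and `u` such that every random data structure for
families of `2 k` subsets of a universe with `u` elements, of total size at most `N`, in which the
contents of every cell are an arbitrary function of a linear sketch of the answers over a finite
abelian group of order at most `2 ^ r` (plus arbitrary functions of each half) and of `d` bits of a
protocol, with `s` cells in which answers enter, `t` probes and advantage `δ`, satisfies
`δ ^ 10 * N ^ 2 ≤ 10 ^ 39 * ((r + d) * t) ^ 4 * (r * s + 1)`. -/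
theorem result (N r d t : ℕ) (δ : ℝ) (hr : 1 ≤ r) (ht : 1 ≤ t) (hδ : 0 < δ) (hδ2 : δ ≤ 1 / 2) :
    ∃ k u : ℕ, 400 * ((r + d) * t) * k ≤ N ∧
      δ ^ 4 * (u : ℝ) ≤ 10 ^ 10 * (((r : ℝ) + d) * t) ^ 2 ∧
      ∀ (c s : ℕ) (Γ : Fin c → Type) [∀ σ, AddCommGroup (Γ σ)] [∀ σ, Fintype (Γ σ)] (Δ : Type)
        (Ω : Type) [Fintype Ω] (p : Ω → ℝ) (D : Ω → ESketchDS k u c d Γ Δ),
        (∀ σ, Fintype.card (Γ σ) ≤ 2 ^ r) → (∀ ω, (D ω).space ≤ s) → ESketchSolves N p D t δ →
        δ ^ 10 * (N : ℝ) ^ 2 ≤ 10 ^ 39 * (((r : ℝ) + d) * t) ^ 4 * (r * s + 1) :=
  efin N r d t δ hr ht hδ hδ2

end Pool.Agent.Results.MP_90de28_lc.GroupSketches
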